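import Mathlib
import Pool.Agent.H.MP_5a9264_co.C

set_option autoImplicit false

namespace Pool.Agent.Results.MP_5a9264_co.Exp

open Set Pool.Agent.H.MP_5a9264_co

theorem result : ∀ n : ℕ, 16 ≤ n → ∃ E : Fin n → Fin n → Prop, Outerplanar E ∧
    (∀ v, ∃ u, E u v ∨ E v u) ∧ Nonempty (Drawing E) ∧
    ∀ (D : Drawing E) (x0 x1 y0 y1 : ℝ), (∀ u, toR (D.pos u) ∈ Icc x0 x1 ×ˢ Icc y0 y1) →
      (2 : ℝ) ^ (n / 8) ≤ 8 * ((x1 - x0) * (y1 - y0)) :=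
  final

end Pool.Agent.Results.MP_5a9264_co.Exp
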